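import Pool.Agent.SqrtFrob.Stage
import Pool.Agent.Sqrt2Digits.Final

set_option autoImplicit false

/-!
The digits of `√2`: long `m`-periodic stretches.
-/

open Finset PowerSeries Sqrt2Digits

namespace SqrtFrob

/-- `(1 - x^m) d`. -/
noncomputable def cs (m : ℕ) (k : ℕ) : ℤ :=
  if k < m then (digit k : ℤ) else (digit k : ℤ) - digit (k - m)

lemma pre_succ' (c : ℕ → ℤ) (N : ℕ) : pre c (N + 1) = 10 * pre c N + c (N + 1) := rfl

lemma pre_cs_lt {m N : ℕ} (h : N < m) : pre (cs m) N = pre (fun k => (digit k : ℤ)) N := by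
  induction N with
  | zero => simp [pre, cs, h]
  | succ N ih =>
    rw [pre, pre, ih (by omega)]
    simp [cs, h]

lemma pre_cs_add (m N : ℕ) (hm : 0 < m) : pre (cs m) (N + m)
    = pre (fun k => (digit k : ℤ)) (N + m) - pre (fun k => (digit k : ℤ)) N := by
  induction N with
  | zero =>
    obtain ⟨m', rfl⟩ : ∃ m', m = m' + 1 := ⟨m - 1, by omega⟩
    rw [zero_add, pre_succ', pre_succ', pre_cs_lt (m := m' + 1) (N := m') (by omega)]
    simp only [cs, lt_irrefl, if_false, Nat.sub_self, pre]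
    ring
  | succ N ih =>
    rw [show N + 1 + m = (N + m) + 1 by ring, pre, ih, pre, pre]
    have h1 : ¬ (N + m + 1 < m) := by omega
    simp only [cs, if_neg h1]
    rw [show N + m + 1 - m = N + 1 by omega]
    ring

lemma abs_cs_le (m k : ℕ) : |cs m k| ≤ 9 := by
  unfold cs
  have h1 := digit_le k
  have h2 := digit_le (k - m)
  split_ifs
  · rw [abs_le]; constructor <;> omega
  · rw [abs_le]; constructor <;> omega

/-- The real number `(1 - 10^{-m}) √2`. -/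
noncomputable def eta (m : ℕ) : ℝ := (1 - 1 / 10 ^ m) * Real.sqrt 2

lemma tau_le (m : ℕ) (hm : 0 < m) (N : ℕ) : |10 ^ N * eta m - pre (cs m) N| ≤ 2 := by
  rcases Nat.lt_or_ge N m with h | h
  · rw [pre_cs_lt h, pre_digit]
    obtain ⟨h1, h2⟩ := tail_bounds N
    have h3 : (10 : ℝ) ^ N * eta m = 10 ^ N * Real.sqrt 2 - 10 ^ N / 10 ^ m * Real.sqrt 2 := by
      unfold eta; ring
    have h4 : (10 : ℝ) ^ N / 10 ^ m ≤ 1 / 10 := by
      obtain ⟨j, rfl⟩ : ∃ j, m = N + 1 + j := ⟨m - (N + 1), by omega⟩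
      rw [pow_add, pow_add, pow_one, div_le_div_iff₀ (by positivity) (by norm_num)]
      have h5 : (1 : ℝ) ≤ 10 ^ j := one_le_pow₀ (by norm_num)
      have h6 : (0 : ℝ) < 10 ^ N := by positivity
      nlinarith
    have h5 : (0 : ℝ) ≤ (10 : ℝ) ^ N / 10 ^ m := by positivity
    have hs := sqrt_bounds
    rw [h3, abs_le]
    push_cast
    constructor <;> nlinarith
  · obtain ⟨M, rfl⟩ : ∃ M, N = M + m := ⟨N - m, by omega⟩
    rw [pre_cs_add m M hm, pre_digit, pre_digit]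
    obtain ⟨h1, h2⟩ := tail_bounds (M + m)
    obtain ⟨h1', h2'⟩ := tail_bounds M
    have h3 : (10 : ℝ) ^ (M + m) * eta m = 10 ^ (M + m) * Real.sqrt 2 - 10 ^ M * Real.sqrt 2 := by
      unfold eta
      rw [pow_add]
      have : (10 : ℝ) ^ m ≠ 0 := by positivity
      field_simp
    rw [h3, abs_le]
    push_cast
    constructor <;> linarith

/-- `a₂` -/
def aa2 (m : ℕ) : ℤ := 5 * 10 ^ (2 * m - 1)

/-- `a₀` -/
def aa0 (m : ℕ) : ℤ := (10 ^ m - 1) ^ 2

lemma eta_rel (m : ℕ) (hm : 0 < m) :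
    ((aa2 m : ℤ) : ℝ) * eta m ^ 2 + ((0 : ℤ) : ℝ) * eta m = ((aa0 m : ℤ) : ℝ) := by
  obtain ⟨j, rfl⟩ : ∃ j, m = j + 1 := ⟨m - 1, by omega⟩
  unfold aa2 aa0 eta
  have h1 : 2 * (j + 1) - 1 = 2 * j + 1 := by omega
  rw [h1]
  push_cast
  rw [mul_pow, sqrt_sq]
  have h2 : (10 : ℝ) ^ (2 * j + 1) = 10 * (10 ^ j) ^ 2 := by rw [pow_succ, pow_mul']; ring
  have h3 : (10 : ℝ) ^ (j + 1) = 10 * 10 ^ j := by rw [pow_succ]; ring
  rw [h2, h3]
  have h4 : (10 : ℝ) ^ j ≠ 0 := by positivity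
  field_simp
  ring

/-! ### Power series -/

/-- `c` -/
noncomputable def cS (m : ℕ) : PowerSeries ℤ := PowerSeries.mk (cs m)

/-- `C` -/
noncomputable def CS (m : ℕ) : PowerSeries ℤ := PowerSeries.mk (pre (cs m))

/-- `T` -/
noncomputable def TS (m : ℕ) : PowerSeries ℤ := PowerSeries.mk (TT (aa2 m) 0 (aa0 m) (cs m))

lemma coeff_uu_mul_succ (φ : PowerSeries ℤ) (n : ℕ) :
    coeff (n + 1) (uu * φ) = coeff (n + 1) φ - 10 * coeff n φ := by
  have h : uu * φ = φ - C 10 * (X * φ) := by unfold uu; ring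
  rw [h, map_sub, coeff_C_mul, coeff_succ_X_mul]

lemma coeff_uu_mul_zero (φ : PowerSeries ℤ) : coeff 0 (uu * φ) = coeff 0 φ := by
  simp [uu, coeff_mul]

lemma uu_mul_CS (m : ℕ) : uu * CS m = cS m := by
  ext n
  cases n with
  | zero => rw [coeff_uu_mul_zero]; simp [CS, cS, pre]
  | succ n =>
    rw [coeff_uu_mul_succ]
    simp only [CS, cS, coeff_mk, pre]
    ring

lemma cS_mul_CS (m : ℕ) : cS m * CS m = PowerSeries.mk (conv (cs m)) := by
  ext n
  rw [coeff_mul, coeff_mk, Finset.Nat.sum_antidiagonal_eq_sum_range_succ_mk]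
  simp [cS, CS, conv]

lemma uu_mul_ten : uu * PowerSeries.mk (fun n => (10 : ℤ) ^ n) = 1 := by
  ext n
  cases n with
  | zero => rw [coeff_uu_mul_zero]; simp
  | succ n =>
    rw [coeff_uu_mul_succ]
    simp only [coeff_mk, coeff_one]
    rw [if_neg (by omega), pow_succ]
    ring

lemma uu_mul_TS (m : ℕ) : uu * TS m = C (aa0 m) - C (aa2 m) * cS m ^ 2 := by
  have h : TS m = C (aa0 m) * PowerSeries.mk (fun n => (10 : ℤ) ^ n)
      - C (aa2 m) * (cS m * CS m) := by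
    rw [cS_mul_CS]
    ext n
    rw [map_sub, coeff_C_mul, coeff_C_mul]
    simp only [TS, TT, coeff_mk]
    ring
  have h1 : uu * TS m = C (aa0 m) * (uu * PowerSeries.mk (fun n => (10 : ℤ) ^ n))
      - C (aa2 m) * (cS m * (uu * CS m)) := by
    rw [h]; ring
  rw [h1, uu_mul_ten, uu_mul_CS]
  ring

/-- The counting function. -/
noncomputable def Lam (m N : ℕ) : ℕ := lam (cs m) N + 1

lemma lam_mono (c : ℕ → ℤ) : Monotone (lam c) := by
  intro M N h
  unfold lam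
  apply card_le_card
  intro k hk
  simp only [mem_filter, mem_range] at hk ⊢
  exact ⟨by omega, hk.2⟩

lemma Lam_mono (m : ℕ) : Monotone (Lam m) := fun _ _ h => Nat.succ_le_succ (lam_mono _ h)

lemma one_le_Lam (m N : ℕ) : 1 ≤ Lam m N := by unfold Lam; omega

lemma bd_cS (m : ℕ) : Bd (Lam m) (cS m) 1 1 := by
  refine ⟨1, fun N => ?_⟩
  have h : cnt (cS m) N = lam (cs m) N := by
    unfold cnt lam
    simp [cS]
  rw [h, one_mul, one_mul, pow_one]
  unfold Lam; omega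

lemma bd_TS (m : ℕ) (hm : 0 < m) : Bd (Lam m) (TS m) 2 1 := by
  set A : ℝ := (|((aa2 m : ℤ) : ℝ)| * (|eta m| + 9) + |((0 : ℤ) : ℝ)|) * (2 + 1) with hA
  have hA0 : 0 ≤ A := by positivity
  refine ⟨⌈A⌉₊, fun N => ?_⟩
  have h1 := sum_TT_le (η := eta m) (τ := fun N => 10 ^ N * eta m - pre (cs m) N) (D := 2)
    (fun N => rfl) (tau_le m hm) (abs_cs_le m) (eta_rel m hm) N
  have h2 : (cnt (TS m) N : ℝ) ≤ ∑ R ∈ range N, |(TT (aa2 m) 0 (aa0 m) (cs m) R : ℝ)| := by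
    have h3 : cnt (TS m) N
        = ((range N).filter (fun R => TT (aa2 m) 0 (aa0 m) (cs m) R ≠ 0)).card := by
      unfold cnt
      simp [TS]
    rw [h3]
    calc (((range N).filter (fun R => TT (aa2 m) 0 (aa0 m) (cs m) R ≠ 0)).card : ℝ)
        = ∑ R ∈ (range N).filter (fun R => TT (aa2 m) 0 (aa0 m) (cs m) R ≠ 0), (1 : ℝ) := by simp
      _ ≤ ∑ R ∈ (range N).filter (fun R => TT (aa2 m) 0 (aa0 m) (cs m) R ≠ 0),
            |(TT (aa2 m) 0 (aa0 m) (cs m) R : ℝ)| := by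
          refine sum_le_sum fun R hR => ?_
          have := Int.one_le_abs (mem_filter.1 hR).2
          exact_mod_cast this
      _ ≤ _ := sum_le_sum_of_subset_of_nonneg (filter_subset _ _) fun _ _ _ => abs_nonneg _
  set l : ℝ := (lam (cs m) N : ℝ) with hl
  have hl0 : 0 ≤ l := by positivity
  have h4 : (|((aa2 m : ℤ) : ℝ)| * (|eta m| + 9 * l) + |((0 : ℤ) : ℝ)|) * (2 + 1 + l)
      ≤ A * (l + 1) ^ 2 := by
    have h5 : |((aa2 m : ℤ) : ℝ)| * (|eta m| + 9 * l) + |((0 : ℤ) : ℝ)|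
        ≤ (|((aa2 m : ℤ) : ℝ)| * (|eta m| + 9) + |((0 : ℤ) : ℝ)|) * (l + 1) := by
      have h51 := abs_nonneg ((aa2 m : ℤ) : ℝ)
      have h52 := abs_nonneg ((0 : ℤ) : ℝ)
      have h53 := abs_nonneg (eta m)
      nlinarith [mul_nonneg h51 h53, mul_nonneg (mul_nonneg h51 h53) hl0, mul_nonneg h52 hl0]
    have h6 : 2 + 1 + l ≤ (2 + 1) * (l + 1) := by nlinarith
    calc _ ≤ ((|((aa2 m : ℤ) : ℝ)| * (|eta m| + 9) + |((0 : ℤ) : ℝ)|) * (l + 1))
            * ((2 + 1) * (l + 1)) := mul_le_mul h5 h6 (by positivity) (by positivity)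
      _ = _ := by rw [hA]; ring
  have h7 : (cnt (TS m) N : ℝ) ≤ ⌈A⌉₊ * (Lam m (1 * N) : ℝ) ^ 2 := by
    have h8 : (Lam m (1 * N) : ℝ) = l + 1 := by
      rw [one_mul]; unfold Lam; push_cast; rfl
    rw [h8]
    calc (cnt (TS m) N : ℝ) ≤ A * (l + 1) ^ 2 := h2.trans (h1.trans h4)
      _ ≤ _ := by
        have := Nat.le_ceil A
        gcongr
  exact_mod_cast h7

/-- For a prime `p` the indices with `p^a ∤ C_n`. -/
theorem bad_prime (m : ℕ) (hm : 0 < m) {p a : ℕ} (hp : p.Prime) (hpa : p ^ a ∣ 10 ^ m - 1)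
    (ha : a ≠ 0) :
    ∃ K : ℕ, ∀ M, ((range M).filter (fun n => ¬ ((p ^ a : ℕ) : ℤ) ∣ pre (cs m) n)).card
        ≤ K * Lam m (p ^ a * M) ^ (p ^ a) := by
  have : Fact p.Prime := ⟨hp⟩
  have h10 : 1 ≤ 10 ^ m := Nat.one_le_pow _ _ (by norm_num)
  have hpd : p ∣ 10 ^ m - 1 := (dvd_pow_self p ha).trans hpa
  have hp10 : ¬ p ∣ 10 := by
    intro h
    have h1 : p ∣ 10 ^ m := dvd_pow h hm.ne'
    have h2 : p ∣ 10 ^ m - (10 ^ m - 1) := Nat.dvd_sub h1 hpd
    rw [show 10 ^ m - (10 ^ m - 1) = 1 by omega] at h2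
    exact hp.one_lt.ne' (Nat.dvd_one.1 h2)
  have hp2 : p ≠ 2 := by
    rintro rfl
    exact hp10 (by norm_num)
  have hodd : p % 2 = 1 := hp.eq_two_or_odd.resolve_left hp2
  obtain ⟨h, hph⟩ : ∃ h, p = 2 * h + 1 := ⟨p / 2, by omega⟩
  have hh : 1 ≤ h := by
    have := hp.two_le
    omega
  have hpp : Prime (p : ℤ) := Nat.prime_iff_prime_int.1 hp
  have ha₂ : ¬ (p : ℤ) ∣ aa2 m := by
    unfold aa2
    intro h1
    rcases hpp.dvd_or_dvd h1 with h2 | h2
    · apply hp10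
      have h3 : p ∣ 5 := by exact_mod_cast h2
      exact h3.trans (by norm_num)
    · have h3 := hpp.dvd_of_dvd_pow h2
      exact hp10 (by exact_mod_cast h3)
  have ha₀ : ((p : ℤ) ^ a) ^ 2 ∣ aa0 m := by
    unfold aa0
    apply pow_dvd_pow_of_dvd
    have h1 : ((p ^ a : ℕ) : ℤ) ∣ ((10 ^ m - 1 : ℕ) : ℤ) := Int.natCast_dvd_natCast.2 hpa
    rw [Nat.cast_sub h10] at h1
    push_cast at h1
    exact h1
  obtain ⟨K, hK⟩ := stage (Lam_mono m) (one_le_Lam m) hph hh ha₂ a 1 1 (aa0 m) (cS m) (CS m) (TS m)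
    (uu_mul_CS m) (uu_mul_TS m) ha₀ (bd_cS m) (bd_TS m hm)
  refine ⟨K, fun M => ?_⟩
  have h1 := hK M
  rw [one_mul] at h1
  refine le_trans (le_of_eq ?_) h1
  congr 1
  apply filter_congr
  intro n _
  simp [CS]

/-- The indices `n` with `10^m - 1 ∤ C_n`. -/
theorem bad_all (m : ℕ) (hm : 0 < m) {Q : ℕ}
    (hQ : ∀ q, IsPrimePow q → q ∣ 10 ^ m - 1 → q ≤ Q) :
    ∃ K : ℕ, ∀ M, ((range M).filter (fun n => ¬ ((10 ^ m - 1 : ℕ) : ℤ) ∣ pre (cs m) n)).card
        ≤ K * Lam m (Q * M) ^ Q := by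
  set B : ℕ := 10 ^ m - 1 with hB
  have hB0 : B ≠ 0 := by
    have : (10 : ℕ) ^ 1 ≤ 10 ^ m := Nat.pow_le_pow_right (by norm_num) hm
    omega
  have hex : ∀ p ∈ B.primeFactors, ∃ K : ℕ, ∀ M,
      ((range M).filter (fun n => ¬ ((p ^ B.factorization p : ℕ) : ℤ) ∣ pre (cs m) n)).card
        ≤ K * Lam m (Q * M) ^ Q := by
    intro p hp
    have hpp := Nat.prime_of_mem_primeFactors hp
    have hpB := Nat.dvd_of_mem_primeFactors hp
    have ha : B.factorization p ≠ 0 := by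
      have := hpp.factorization_pos_of_dvd hB0 hpB
      omega
    have hd : p ^ B.factorization p ∣ B := Nat.ordProj_dvd B p
    obtain ⟨K, hK⟩ := bad_prime m hm hpp hd ha
    have hle : p ^ B.factorization p ≤ Q := hQ _ (hpp.isPrimePow.pow ha) hd
    refine ⟨K, fun M => (hK M).trans (Nat.mul_le_mul_left _ ?_)⟩
    calc _ ≤ Lam m (Q * M) ^ (p ^ B.factorization p) :=
          Nat.pow_le_pow_left (Lam_mono m (Nat.mul_le_mul_right _ hle)) _
      _ ≤ _ := Nat.pow_le_pow_right (one_le_Lam _ _) hle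
  choose! K hK using hex
  refine ⟨∑ p ∈ B.primeFactors, K p, fun M => ?_⟩
  have hsub : (range M).filter (fun n => ¬ ((B : ℕ) : ℤ) ∣ pre (cs m) n) ⊆
      B.primeFactors.biUnion (fun p =>
        (range M).filter (fun n => ¬ ((p ^ B.factorization p : ℕ) : ℤ) ∣ pre (cs m) n)) := by
    intro n hn
    simp only [mem_filter, mem_biUnion] at hn ⊢
    by_contra hcon
    push Not at hcon
    apply hn.2
    rw [Int.natCast_dvd, Nat.dvd_iff_prime_pow_dvd_dvd]
    intro p k hp hk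
    rcases Nat.eq_zero_or_pos k with hk0 | hk0
    · rw [hk0, pow_zero]; exact one_dvd _
    · have hpB : p ∈ B.primeFactors :=
        Nat.mem_primeFactors.2 ⟨hp, (dvd_pow_self p hk0.ne').trans hk, hB0⟩
      have h1 := Int.natCast_dvd.1 (hcon p hpB hn.1)
      exact ((Nat.pow_dvd_pow_iff_le_right hp.one_lt).2
        ((hp.pow_dvd_iff_le_factorization hB0).1 hk)).trans h1
  calc _ ≤ _ := card_le_card hsub
    _ ≤ ∑ p ∈ B.primeFactors,
        ((range M).filter (fun n => ¬ ((p ^ B.factorization p : ℕ) : ℤ) ∣ pre (cs m) n)).card :=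
        card_biUnion_le
    _ ≤ ∑ p ∈ B.primeFactors, K p * Lam m (Q * M) ^ Q := sum_le_sum fun p hp => hK p hp M
    _ = _ := by rw [sum_mul]

end SqrtFrob
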