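import Pool.Agent.SqrtFrob.Digits

set_option autoImplicit false

/-!
The decimal digits of `√2`: the final statements.
-/

open Finset Sqrt2Digits

namespace SqrtFrob

/-- The number of `m ≤ k < N` with `d_k ≠ d_{k-m}`. -/
noncomputable def brk (m N : ℕ) : ℕ :=
  ((range N).filter (fun k => m ≤ k ∧ digit k ≠ digit (k - m))).card

lemma lam_cs_le (m N : ℕ) : lam (cs m) N ≤ m + brk m N := by
  unfold lam brk
  calc ((range N).filter (fun k => cs m k ≠ 0)).card
      ≤ (range m ∪ (range N).filter (fun k => m ≤ k ∧ digit k ≠ digit (k - m))).card := by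
        refine card_le_card fun k hk => ?_
        simp only [mem_filter, mem_range] at hk
        simp only [mem_union, mem_filter, mem_range]
        by_cases h : k < m
        · exact Or.inl h
        · right
          refine ⟨hk.1, by omega, fun h' => hk.2 ?_⟩
          simp only [cs, if_neg h, h']
          ring
    _ ≤ _ := (card_union_le _ _).trans (by rw [card_range])

lemma Lam_le (m N : ℕ) : Lam m N ≤ (m + 1) * (1 + brk m N) := by
  unfold Lam
  have := lam_cs_le m N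
  nlinarith [Nat.zero_le (m * brk m N)]

/-- The digits of the block ending at `n` are not all `0` and not all `9`. -/
lemma block_of_dvd (m n : ℕ) (hm : 0 < m) (hmn : m ≤ n)
    (h : ((10 ^ m - 1 : ℕ) : ℤ) ∣ pre (cs m) n) :
    (∀ j < m, digit (n - j) = 0) ∨ (∀ j < m, digit (n - j) = 9) := by
  obtain ⟨M, rfl⟩ : ∃ M, n = M + m := ⟨n - m, by omega⟩
  rw [pre_cs_add m M hm, pre_add] at h
  have h10 : 1 ≤ 10 ^ m := Nat.one_le_pow _ _ (by norm_num)
  rw [Nat.cast_sub h10] at h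
  push_cast at h
  set w : ℕ → ℤ := fun k => (digit k : ℤ) with hw
  have h1 : ((10 : ℤ) ^ m - 1) ∣ block w M m := by
    have h2 : 10 ^ m * pre w M + block w M m - pre w M
        = (10 ^ m - 1) * pre w M + block w M m := by ring
    rw [h2] at h
    exact (Int.dvd_add_right (dvd_mul_right _ _)).1 h
  have h0 : ∀ k, 0 ≤ w k := fun k => by simp only [hw]; positivity
  have h9 : ∀ k, w k ≤ 9 := fun k => by
    simp only [hw]; exact_mod_cast digit_le k
  have hb0 := block_nonneg h0 M m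
  have hb1 := block_le h9 M m
  obtain ⟨q, hq⟩ := h1
  have hpos : (0 : ℤ) < 10 ^ m - 1 := by
    have h2 : (10 : ℤ) ^ 1 ≤ 10 ^ m := pow_le_pow_right₀ (by norm_num) hm
    linarith
  have hq01 : q = 0 ∨ q = 1 := by
    have hq0 : 0 ≤ q := by
      by_contra hcon
      push Not at hcon
      nlinarith
    have hq1 : q ≤ 1 := by
      by_contra hcon
      push Not at hcon
      nlinarith
    omega
  rcases hq01 with rfl | rfl
  · left
    intro j hj
    have h2 := block_eq_zero h0 M m (by rw [hq, mul_zero]) (m - j) (by omega) (by omega)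
    rw [show M + m - j = M + (m - j) by omega]
    simp only [hw] at h2
    exact_mod_cast h2
  · right
    intro j hj
    have h2 := block_eq_nine h9 M m (by rw [hq, mul_one]) (m - j) (by omega) (by omega)
    rw [show M + m - j = M + (m - j) by omega]
    simp only [hw] at h2
    exact_mod_cast h2

/-- Statement (A). -/
theorem few_blocks (m : ℕ) (hm : 0 < m) {Q : ℕ}
    (hQ : ∀ q, IsPrimePow q → q ∣ 10 ^ m - 1 → q ≤ Q) :
    ∃ K : ℝ, 0 < K ∧ ∀ N : ℕ,
      (((range N).filter (fun n => m ≤ n ∧ (∃ j < m, digit (n - j) ≠ 0) ∧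
        (∃ j < m, digit (n - j) ≠ 9))).card : ℝ) ≤ K * (1 + (brk m (Q * N) : ℝ)) ^ Q := by
  obtain ⟨K, hK⟩ := bad_all m hm hQ
  refine ⟨(K : ℝ) * ((m : ℝ) + 1) ^ Q + 1, by positivity, fun N => ?_⟩
  have h1 : ((range N).filter (fun n => m ≤ n ∧ (∃ j < m, digit (n - j) ≠ 0) ∧
        (∃ j < m, digit (n - j) ≠ 9))).card ≤ K * Lam m (Q * N) ^ Q := by
    refine (card_le_card ?_).trans (hK N)
    intro n hn
    simp only [mem_filter] at hn ⊢
    refine ⟨hn.1, fun hd => ?_⟩
    rcases block_of_dvd m n hm hn.2.1 hd with h | h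
    · obtain ⟨j, hj, hj'⟩ := hn.2.2.1
      exact hj' (h j hj)
    · obtain ⟨j, hj, hj'⟩ := hn.2.2.2
      exact hj' (h j hj)
  have h2 : K * Lam m (Q * N) ^ Q ≤ K * ((m + 1) * (1 + brk m (Q * N))) ^ Q :=
    Nat.mul_le_mul_left _ (Nat.pow_le_pow_left (Lam_le _ _) _)
  have h3 : (((range N).filter (fun n => m ≤ n ∧ (∃ j < m, digit (n - j) ≠ 0) ∧
        (∃ j < m, digit (n - j) ≠ 9))).card : ℝ)
      ≤ (K : ℝ) * (((m : ℝ) + 1) * (1 + (brk m (Q * N) : ℝ))) ^ Q := by
    exact_mod_cast h1.trans h2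
  rw [mul_pow] at h3
  have h4 : (0 : ℝ) ≤ (1 + (brk m (Q * N) : ℝ)) ^ Q := by positivity
  nlinarith

/-- At least `c √N` of the digits differ from `a`. -/
lemma many_ne (a : ℕ) (ha : a ≤ 9) : ∃ c : ℝ, 0 < c ∧ ∀ᶠ N : ℕ in Filter.atTop,
    c * Real.sqrt N ≤ (((Icc 1 N).filter (fun k => digit k ≠ a)).card : ℝ) :=
  main_sqrt (w := fun _ => a) (fun _ => ha) (K := 0) (m := 1) one_pos (fun _ _ => rfl)

/-- Statement (B). -/
theorem dichotomy (m : ℕ) (hm : 0 < m) {Q : ℕ}
    (hQ : ∀ q, IsPrimePow q → q ∣ 10 ^ m - 1 → q ≤ Q) :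
    ∃ c : ℝ, 0 < c ∧ ∀ᶠ N : ℕ in Filter.atTop,
      c * (N : ℝ) ^ (1 / (2 * (Q : ℝ))) ≤ (brk m (N + 1) : ℝ) ∨
      (c * Real.sqrt N ≤
          (((Icc 1 N).filter (fun n => m ≤ n ∧ ∀ j < m, digit (n - j) = 0)).card : ℝ) ∧
        c * Real.sqrt N ≤
          (((Icc 1 N).filter (fun n => m ≤ n ∧ ∀ j < m, digit (n - j) = 9)).card : ℝ)) := by
  have hQ9 : 9 ≤ Q := by
    apply hQ 9 (by
      rw [show (9 : ℕ) = 3 ^ 2 by norm_num]
      exact Nat.prime_three.isPrimePow.pow (by norm_num))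
    have h1 : 10 - 1 ∣ 10 ^ m - 1 ^ m := Nat.sub_dvd_pow_sub_pow 10 1 m
    simpa using h1
  obtain ⟨K, hK0, hK⟩ := few_blocks m hm hQ
  obtain ⟨c₀, hc₀, h₀⟩ := many_ne 0 (by norm_num)
  obtain ⟨c₉, hc₉, h₉⟩ := many_ne 9 le_rfl
  set c₁ : ℝ := min c₀ c₉ with hc₁
  have hc₁0 : 0 < c₁ := lt_min hc₀ hc₉
  have hQ0 : (0 : ℝ) < Q := by exact_mod_cast (by omega : 0 < Q)
  have hQ1 : (1 : ℝ) ≤ Q := by exact_mod_cast (by omega : 1 ≤ Q)
  -- constants
  set c₂ : ℝ := c₁ / (4 * Real.sqrt Q) with hc₂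
  have hsQ : 0 < Real.sqrt Q := Real.sqrt_pos.2 hQ0
  have hc₂0 : 0 < c₂ := by positivity
  obtain ⟨c₃, hc₃0, hc₃⟩ : ∃ c₃ : ℝ, 0 < c₃ ∧ K * (2 * c₃) ^ Q ≤ c₂ / 2 := by
    have hlim : Filter.Tendsto (fun x : ℝ => K * (2 * x) ^ Q) (nhds 0) (nhds (K * (2 * 0) ^ Q)) := by
      apply Continuous.tendsto
      fun_prop
    have h0 : K * (2 * (0 : ℝ)) ^ Q = 0 := by
      rw [mul_zero, zero_pow (by omega), mul_zero]
    rw [h0] at hlim
    have hev := hlim.eventually (gt_mem_nhds (show (0 : ℝ) < c₂ / 2 by positivity))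
    obtain ⟨ε, hε, hball⟩ := Metric.eventually_nhds_iff.1 hev
    refine ⟨ε / 2, by positivity, (hball ?_).le⟩
    rw [Real.dist_eq, sub_zero, abs_of_pos (by positivity)]
    linarith
  refine ⟨min c₃ (c₂ / 2), by positivity, ?_⟩
  have hdiv : Filter.Tendsto (fun N : ℕ => N / Q) Filter.atTop Filter.atTop :=
    Nat.tendsto_div_const_atTop (by omega)
  have hpow : Filter.Tendsto (fun N : ℕ => c₃ * (N : ℝ) ^ (1 / (2 * (Q : ℝ)))) Filter.atTop
      Filter.atTop := by
    apply Filter.Tendsto.const_mul_atTop hc₃0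
    exact (tendsto_rpow_atTop (by positivity)).comp tendsto_natCast_atTop_atTop
  have hsq : Filter.Tendsto (fun N : ℕ => c₂ / 2 * Real.sqrt N) Filter.atTop Filter.atTop := by
    apply Filter.Tendsto.const_mul_atTop (by positivity)
    exact Real.tendsto_sqrt_atTop.comp tendsto_natCast_atTop_atTop
  filter_upwards [hdiv.eventually h₀, hdiv.eventually h₉, hpow.eventually_ge_atTop 1,
    hsq.eventually_ge_atTop ((m : ℝ) + 1), Filter.eventually_ge_atTop (2 * Q)] with N hN0 hN9 hN1 hN2 hN3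
  by_cases hbrk : min c₃ (c₂ / 2) * (N : ℝ) ^ (1 / (2 * (Q : ℝ))) ≤ (brk m (N + 1) : ℝ)
  · exact Or.inl hbrk
  right
  push Not at hbrk
  have hN0' : (0 : ℝ) < N := by
    have : 0 < N := by omega
    exact_mod_cast this
  set P : ℝ := (N : ℝ) ^ (1 / (2 * (Q : ℝ))) with hP
  have hP0 : 0 < P := by positivity
  have hPQ : P ^ Q = Real.sqrt N := by
    rw [hP, ← Real.rpow_natCast, ← Real.rpow_mul hN0'.le, Real.sqrt_eq_rpow]
    congr 1
    field_simp
  have hbrk2 : (brk m (N + 1) : ℝ) < c₃ * P := by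
    refine hbrk.trans_le ?_
    gcongr
    exact min_le_left _ _
  -- the count of mixed blocks up to `N / Q`
  set M : ℕ := N / Q with hM
  have hMQ : Q * M ≤ N := Nat.mul_div_le N Q
  have hmix : (((range (M + 1)).filter (fun n => m ≤ n ∧ (∃ j < m, digit (n - j) ≠ 0) ∧
        (∃ j < m, digit (n - j) ≠ 9))).card : ℝ) ≤ c₂ / 2 * Real.sqrt N + 1 := by
    have h1 := hK M
    have h2 : (brk m (Q * M) : ℝ) ≤ brk m (N + 1) := by
      have : brk m (Q * M) ≤ brk m (N + 1) := by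
        unfold brk
        apply card_le_card
        intro k hk
        simp only [mem_filter, mem_range] at hk ⊢
        exact ⟨by omega, hk.2⟩
      exact_mod_cast this
    have h3 : 1 + (brk m (Q * M) : ℝ) ≤ 2 * c₃ * P := by linarith
    have h4 : K * (1 + (brk m (Q * M) : ℝ)) ^ Q ≤ c₂ / 2 * Real.sqrt N := by
      calc K * (1 + (brk m (Q * M) : ℝ)) ^ Q ≤ K * (2 * c₃ * P) ^ Q := by gcongr
        _ = K * (2 * c₃) ^ Q * P ^ Q := by rw [mul_pow (2 * c₃)]; ring
        _ ≤ c₂ / 2 * P ^ Q := by gcongr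
        _ = _ := by rw [hPQ]
    have h5 : ((range (M + 1)).filter (fun n => m ≤ n ∧ (∃ j < m, digit (n - j) ≠ 0) ∧
        (∃ j < m, digit (n - j) ≠ 9))).card
        ≤ ((range M).filter (fun n => m ≤ n ∧ (∃ j < m, digit (n - j) ≠ 0) ∧
        (∃ j < m, digit (n - j) ≠ 9))).card + 1 := by
      rw [range_add_one, filter_insert]
      split_ifs
      · exact card_insert_le _ _
      · omega
    have h6 : (((range (M + 1)).filter (fun n => m ≤ n ∧ (∃ j < m, digit (n - j) ≠ 0) ∧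
        (∃ j < m, digit (n - j) ≠ 9))).card : ℝ)
        ≤ (((range M).filter (fun n => m ≤ n ∧ (∃ j < m, digit (n - j) ≠ 0) ∧
        (∃ j < m, digit (n - j) ≠ 9))).card : ℝ) + 1 := by exact_mod_cast h5
    linarith
  have hsqM : c₂ * 2 * Real.sqrt N ≤ c₁ * Real.sqrt M := by
    have h1 : (N : ℝ) ≤ 4 * Q * M := by
      have h2 : N < Q * (M + 1) := by
        have := Nat.lt_mul_div_succ N (show 0 < Q by omega)
        rw [hM]; exact this
      have h3 : 1 ≤ M := by
        rw [hM, Nat.le_div_iff_mul_le (by omega)]; omega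
      have h4 : N ≤ 4 * Q * M := by nlinarith
      exact_mod_cast h4
    have h2 : Real.sqrt N ≤ 2 * Real.sqrt Q * Real.sqrt M := by
      have h3 : Real.sqrt (4 * Q * M) = 2 * Real.sqrt Q * Real.sqrt M := by
        rw [show (4 : ℝ) * Q * M = (2 ^ 2) * (Q * M) by ring, Real.sqrt_mul (by norm_num),
          Real.sqrt_sq (by norm_num), Real.sqrt_mul hQ0.le]
        ring
      rw [← h3]
      exact Real.sqrt_le_sqrt h1
    rw [hc₂]
    have h3 : c₁ / (4 * Real.sqrt Q) * 2 * Real.sqrt N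
        ≤ c₁ / (4 * Real.sqrt Q) * 2 * (2 * Real.sqrt Q * Real.sqrt M) := by gcongr
    refine h3.trans (le_of_eq ?_)
    field_simp
    ring
  -- a generic argument for both digits
  have key : ∀ a b : ℕ, (a = 0 ∧ b = 9) ∨ (a = 9 ∧ b = 0) →
      c₁ * Real.sqrt M ≤ (((Icc 1 M).filter (fun k => digit k ≠ a)).card : ℝ) →
      min c₃ (c₂ / 2) * Real.sqrt N ≤
        (((Icc 1 N).filter (fun n => m ≤ n ∧ ∀ j < m, digit (n - j) = b)).card : ℝ) := by
    intro a b hab hcount
    have hsub : (Icc 1 M).filter (fun k => digit k ≠ a) ⊆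
        ((Icc 1 N).filter (fun n => m ≤ n ∧ ∀ j < m, digit (n - j) = b)) ∪
        (((range (M + 1)).filter (fun n => m ≤ n ∧ (∃ j < m, digit (n - j) ≠ 0) ∧
        (∃ j < m, digit (n - j) ≠ 9))) ∪ range m) := by
      intro k hk
      simp only [mem_filter, mem_Icc] at hk
      simp only [mem_union, mem_filter, mem_Icc, mem_range]
      by_cases hkm : k < m
      · exact Or.inr (Or.inr hkm)
      by_cases hb : ∀ j < m, digit (k - j) = b
      · left
        have : M ≤ N := Nat.div_le_self _ _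
        exact ⟨⟨hk.1.1, by omega⟩, by omega, hb⟩
      · right; left
        push Not at hb
        have ha : ∃ j < m, digit (k - j) ≠ a := ⟨0, hm, by simpa using hk.2⟩
        rcases hab with ⟨rfl, rfl⟩ | ⟨rfl, rfl⟩
        · exact ⟨by omega, by omega, ha, hb⟩
        · exact ⟨by omega, by omega, hb, ha⟩
    have h1 := (card_le_card hsub).trans ((card_union_le _ _).trans
      (Nat.add_le_add_left (card_union_le _ _) _))
    rw [card_range] at h1
    have h2 : (((Icc 1 M).filter (fun k => digit k ≠ a)).card : ℝ) ≤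
        (((Icc 1 N).filter (fun n => m ≤ n ∧ ∀ j < m, digit (n - j) = b)).card : ℝ) +
        ((((range (M + 1)).filter (fun n => m ≤ n ∧ (∃ j < m, digit (n - j) ≠ 0) ∧
        (∃ j < m, digit (n - j) ≠ 9))).card : ℝ) + m) := by exact_mod_cast h1
    have h3 : min c₃ (c₂ / 2) * Real.sqrt N ≤ c₂ / 2 * Real.sqrt N := by
      gcongr
      exact min_le_right _ _
    linarith
  have hM0 : c₁ * Real.sqrt M ≤ (((Icc 1 M).filter (fun k => digit k ≠ 0)).card : ℝ) := by
    refine le_trans ?_ hN0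
    gcongr
    exact min_le_left _ _
  have hM9 : c₁ * Real.sqrt M ≤ (((Icc 1 M).filter (fun k => digit k ≠ 9)).card : ℝ) := by
    refine le_trans ?_ hN9
    gcongr
    exact min_le_right _ _
  exact ⟨key 9 0 (Or.inr ⟨rfl, rfl⟩) hM9, key 0 9 (Or.inl ⟨rfl, rfl⟩) hM0⟩

end SqrtFrob
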