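import Pool.Agent.SqrtFrob.Final

set_option autoImplicit false

/-!
If long runs of `0` (or of `9`) do not occur, then every period is broken polynomially often.
-/

open Finset Sqrt2Digits

namespace SqrtFrob

lemma brk_mul_le (m L N : ℕ) : brk (m * L) N ≤ L * brk m N := by
  unfold brk
  have hsub : (range N).filter (fun k => m * L ≤ k ∧ digit k ≠ digit (k - m * L)) ⊆
      (range L).biUnion (fun i => ((range N).filter (fun k => m ≤ k ∧ digit k ≠ digit (k - m))).image
        (fun k => k + i * m)) := by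
    intro k hk
    simp only [mem_filter, mem_range] at hk
    simp only [mem_biUnion, mem_range, mem_image, mem_filter]
    by_contra hcon
    push Not at hcon
    apply hk.2.2
    have h : ∀ i ≤ L, digit k = digit (k - i * m) := by
      intro i
      induction i with
      | zero => intro _; simp
      | succ i ih =>
        intro hi
        rw [ih (by omega)]
        by_contra hne
        have h1 : m * (i + 1) ≤ m * L := Nat.mul_le_mul_left _ hi
        have h2 : (i + 1) * m = i * m + m := by ring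
        have h3 : m * (i + 1) = i * m + m := by ring
        refine hcon i (by omega) (k - i * m) ⟨by omega, by omega, ?_⟩ (by omega)
        rwa [show k - i * m - m = k - (i + 1) * m by omega]
    have := h L le_rfl
    rwa [mul_comm L m] at this
  calc _ ≤ _ := card_le_card hsub
    _ ≤ ∑ i ∈ range L, (((range N).filter (fun k => m ≤ k ∧ digit k ≠ digit (k - m))).image
        (fun k => k + i * m)).card := card_biUnion_le
    _ ≤ ∑ i ∈ range L, ((range N).filter (fun k => m ≤ k ∧ digit k ≠ digit (k - m))).card :=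
        sum_le_sum fun i _ => card_image_le
    _ = _ := by rw [sum_const, card_range, smul_eq_mul]

lemma brk_succ_le (m N : ℕ) : brk m (N + 1) ≤ brk m N + 1 := by
  unfold brk
  rw [range_add_one, filter_insert]
  split_ifs
  · exact card_insert_le _ _
  · omega

/-- If the blocks `b^L` (`b = 0` or `b = 9`) end at only finitely many places. -/
theorem poly_breaks {L b : ℕ} (hb : b = 0 ∨ b = 9)
    (hfin : {n : ℕ | L ≤ n ∧ ∀ j < L, digit (n - j) = b}.Finite) (m : ℕ) (hm : 0 < m) :
    ∃ δ : ℝ, 0 < δ ∧ ∀ᶠ N : ℕ in Filter.atTop, (N : ℝ) ^ δ ≤ (brk m N : ℝ) := by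
  set m' : ℕ := m * (L + 1) with hm'
  have hm'0 : 0 < m' := by positivity
  have hLm' : L ≤ m' := by
    rw [hm']; nlinarith
  have h10 : 0 < 10 ^ m' - 1 := by
    have : (10 : ℕ) ^ 1 ≤ 10 ^ m' := Nat.pow_le_pow_right (by norm_num) hm'0
    omega
  obtain ⟨c, hc, hdic⟩ := dichotomy m' hm'0 (Q := 10 ^ m' - 1)
    (fun q _ hq => Nat.le_of_dvd h10 hq)
  set Q : ℕ := 10 ^ m' - 1 with hQ
  have hQ0 : (0 : ℝ) < Q := by exact_mod_cast h10
  refine ⟨1 / (4 * (Q : ℝ)), by positivity, ?_⟩
  have hsq : Filter.Tendsto (fun N : ℕ => c * Real.sqrt N) Filter.atTop Filter.atTop := by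
    apply Filter.Tendsto.const_mul_atTop hc
    exact Real.tendsto_sqrt_atTop.comp tendsto_natCast_atTop_atTop
  have hpow : Filter.Tendsto (fun N : ℕ => (N : ℝ) ^ (1 / (4 * (Q : ℝ)))) Filter.atTop
      Filter.atTop :=
    (tendsto_rpow_atTop (by positivity)).comp tendsto_natCast_atTop_atTop
  set B : ℕ := hfin.toFinset.card with hB
  have hbound : ∀ N : ℕ,
      ((Icc 1 N).filter (fun n => m' ≤ n ∧ ∀ j < m', digit (n - j) = b)).card ≤ B := by
    intro N
    apply card_le_card
    intro n hn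
    simp only [mem_filter, mem_Icc] at hn
    rw [Set.Finite.mem_toFinset]
    exact ⟨by omega, fun j hj => hn.2.2 j (by omega)⟩
  filter_upwards [hdic, hsq.eventually_gt_atTop (B : ℝ),
    hpow.eventually_ge_atTop (2 * ((L : ℝ) + 1) / c), hpow.eventually_ge_atTop 1,
    Filter.eventually_ge_atTop 1] with N hN1 hN2 hN3 hN4 hN5
  have hN0 : (0 : ℝ) < N := by exact_mod_cast hN5
  have hfirst : c * (N : ℝ) ^ (1 / (2 * (Q : ℝ))) ≤ (brk m' (N + 1) : ℝ) := by
    rcases hN1 with h | ⟨h0, h9⟩
    · exact h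
    · exfalso
      rcases hb with rfl | rfl
      · have h1 : (((Icc 1 N).filter (fun n => m' ≤ n ∧ ∀ j < m', digit (n - j) = 0)).card : ℝ)
            ≤ B := by exact_mod_cast hbound N
        linarith
      · have h1 : (((Icc 1 N).filter (fun n => m' ≤ n ∧ ∀ j < m', digit (n - j) = 9)).card : ℝ)
            ≤ B := by exact_mod_cast hbound N
        linarith
  set P : ℝ := (N : ℝ) ^ (1 / (4 * (Q : ℝ))) with hP
  have hPP : (N : ℝ) ^ (1 / (2 * (Q : ℝ))) = P * P := by
    rw [hP, ← Real.rpow_add hN0]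
    congr 1
    field_simp
    ring
  rw [hPP] at hfirst
  have h1 : (brk m' (N + 1) : ℝ) ≤ ((L : ℝ) + 1) * ((brk m N : ℝ) + 1) := by
    have h2 : brk m' (N + 1) ≤ (L + 1) * (brk m N + 1) :=
      (brk_mul_le m (L + 1) (N + 1)).trans (Nat.mul_le_mul_left _ (brk_succ_le _ _))
    exact_mod_cast h2
  have hL0 : (0 : ℝ) < (L : ℝ) + 1 := by positivity
  have h3 : 2 * ((L : ℝ) + 1) ≤ c * P := by
    rw [div_le_iff₀ hc] at hN3
    linarith
  have h4 : 2 * ((L : ℝ) + 1) * P ≤ ((L : ℝ) + 1) * ((brk m N : ℝ) + 1) := by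
    calc 2 * ((L : ℝ) + 1) * P ≤ c * P * P := by gcongr
      _ = c * (P * P) := by ring
      _ ≤ _ := hfirst.trans h1
  have h5 : 2 * P ≤ (brk m N : ℝ) + 1 := by
    have h6 : ((L : ℝ) + 1) * (2 * P) ≤ ((L : ℝ) + 1) * ((brk m N : ℝ) + 1) := by linarith
    exact le_of_mul_le_mul_left h6 hL0
  linarith

end SqrtFrob
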