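import Mathlib

set_option autoImplicit false

/-!
Sparse power series and the Frobenius trick.
-/

open Finset PowerSeries

namespace SqrtFrob

/-- The number of nonzero coefficients of index `< N`. -/
noncomputable def cnt (φ : PowerSeries ℤ) (N : ℕ) : ℕ :=
  ((range N).filter (fun k => coeff k φ ≠ 0)).card

lemma cnt_mono (φ : PowerSeries ℤ) {M N : ℕ} (h : M ≤ N) : cnt φ M ≤ cnt φ N := by
  unfold cnt
  apply card_le_card
  intro k hk
  simp only [mem_filter, mem_range] at hk ⊢
  exact ⟨by omega, hk.2⟩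

lemma cnt_add (φ ψ : PowerSeries ℤ) (N : ℕ) : cnt (φ + ψ) N ≤ cnt φ N + cnt ψ N := by
  unfold cnt
  refine (card_le_card ?_).trans (card_union_le _ _)
  intro k hk
  simp only [mem_filter, mem_range, mem_union, map_add] at hk ⊢
  by_cases h : coeff k φ = 0
  · right
    refine ⟨hk.1, fun h' => hk.2 ?_⟩
    rw [h, h', add_zero]
  · exact Or.inl ⟨hk.1, h⟩

lemma cnt_mul (φ ψ : PowerSeries ℤ) (N : ℕ) : cnt (φ * ψ) N ≤ cnt φ N * cnt ψ N := by
  unfold cnt
  rw [← card_product]
  have hsub : (range N).filter (fun k => coeff k (φ * ψ) ≠ 0) ⊆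
      (((range N).filter (fun k => coeff k φ ≠ 0)) ×ˢ
        ((range N).filter (fun k => coeff k ψ ≠ 0))).image (fun q => q.1 + q.2) := by
    intro k hk
    simp only [mem_filter, mem_range] at hk
    obtain ⟨hk1, hk2⟩ := hk
    rw [coeff_mul] at hk2
    obtain ⟨q, hq, hq2⟩ := exists_ne_zero_of_sum_ne_zero hk2
    rw [HasAntidiagonal.mem_antidiagonal] at hq
    simp only [mem_image, mem_product, mem_filter, mem_range, Prod.exists]
    exact ⟨q.1, q.2, ⟨⟨by omega, left_ne_zero_of_mul hq2⟩, ⟨by omega, right_ne_zero_of_mul hq2⟩⟩, hq⟩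
  exact (card_le_card hsub).trans card_image_le

lemma cnt_of_imp {φ ψ : PowerSeries ℤ} (h : ∀ k, coeff k ψ = 0 → coeff k φ = 0) (N : ℕ) :
    cnt φ N ≤ cnt ψ N := by
  unfold cnt
  apply card_le_card
  intro k hk
  simp only [mem_filter, mem_range] at hk ⊢
  exact ⟨hk.1, fun h' => hk.2 (h k h')⟩

lemma cnt_one (N : ℕ) : cnt 1 N ≤ 1 := by
  unfold cnt
  rw [card_le_one]
  intro a ha b hb
  simp only [mem_filter, mem_range, coeff_one] at ha hb
  have ha' : a = 0 := by by_contra h; simp [h] at ha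
  have hb' : b = 0 := by by_contra h; simp [h] at hb
  rw [ha', hb']

lemma cnt_pow (φ : PowerSeries ℤ) (h N : ℕ) : cnt (φ ^ h) N ≤ (cnt φ N) ^ h := by
  induction h with
  | zero => simpa using cnt_one N
  | succ h ih =>
    rw [pow_succ, pow_succ]
    exact (cnt_mul _ _ _).trans (Nat.mul_le_mul_right _ ih)

lemma cnt_C_mul (a : ℤ) (φ : PowerSeries ℤ) (N : ℕ) : cnt (C a * φ) N ≤ cnt φ N := by
  refine cnt_of_imp (fun k hk => ?_) N
  rw [coeff_C_mul, hk, mul_zero]

lemma cnt_X_mul (φ : PowerSeries ℤ) (N : ℕ) : cnt (X * φ) N ≤ cnt φ N := by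
  have h := cnt_mul X φ N
  have h1 : cnt X N ≤ 1 := by
    unfold cnt
    rw [card_le_one]
    intro a ha b hb
    simp only [mem_filter, mem_range, coeff_X] at ha hb
    have ha' : a = 1 := by by_contra h; simp [h] at ha
    have hb' : b = 1 := by by_contra h; simp [h] at hb
    rw [ha', hb']
  exact h.trans (by nlinarith [Nat.zero_le (cnt φ N)])

/-- `1 - 10 X`. -/
noncomputable def uu : PowerSeries ℤ := 1 - C 10 * X

lemma cnt_uu_mul (φ : PowerSeries ℤ) (N : ℕ) : cnt (uu * φ) N ≤ 2 * cnt φ N := by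
  have h : uu * φ = φ + C (-10) * (X * φ) := by
    unfold uu
    rw [map_neg]; ring
  rw [h]
  have h1 := cnt_add φ (C (-10) * (X * φ)) N
  have h2 := cnt_C_mul (-10) (X * φ) N
  have h3 := cnt_X_mul φ N
  omega

lemma isUnit_uu : IsUnit uu := by
  rw [PowerSeries.isUnit_iff_constantCoeff]
  simp [uu]

/-! ### Reduction modulo a prime -/

section modp

variable {p : ℕ} [hp : Fact p.Prime]

/-- reduction -/
noncomputable def red (p : ℕ) : PowerSeries ℤ →+* PowerSeries (ZMod p) :=
  PowerSeries.map (Int.castRingHom (ZMod p))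

lemma coeff_red (φ : PowerSeries ℤ) (n : ℕ) : coeff n (red p φ) = ((coeff n φ : ℤ) : ZMod p) := by
  simp [red, coeff_map]

lemma expand_eq_pow (φ : PowerSeries (ZMod p)) :
    PowerSeries.expand p hp.out.ne_zero φ = φ ^ p := by
  have h := MvPowerSeries.map_frobenius_expand (R := ZMod p) p hp.out.ne_zero (f := φ)
  rw [← h]
  have h2 : frobenius (ZMod p) p = RingHom.id (ZMod p) := by
    ext x; simp
  rw [h2, MvPowerSeries.map_id]
  rfl

/-- The Frobenius identity. -/
lemma frob_coeff {a₂ a₀ : ℤ} {c C' T : PowerSeries ℤ} (h : ℕ) (hph : p = 2 * h + 1) (hh : 1 ≤ h)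
    (hc : uu * C' = c) (hT : uu * T = C a₀ - C a₂ * c ^ 2) (ha₀ : (p : ℤ) ∣ a₀) (n : ℕ) :
    ((coeff (p * n) (T ^ h * c) : ℤ) : ZMod p)
      = (-(a₂ : ZMod p)) ^ h * ((coeff n C' : ℤ) : ZMod p) := by
  have hu0 : red p uu ≠ 0 := by
    intro h0
    have := congrArg (coeff 0) h0
    simp [red, uu] at this
  have hc' : red p c = red p uu * red p C' := by rw [← hc, map_mul]
  have ha : red p (C a₀) = 0 := by
    ext n
    rw [coeff_red, coeff_C]
    split_ifs
    · have := (ZMod.intCast_zmod_eq_zero_iff_dvd a₀ p).2 ha₀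
      simp [this]
    · simp
  have hT' : red p T = - red p (C a₂) * red p uu * red p C' ^ 2 := by
    have h1 := congrArg (red p) hT
    rw [map_mul, map_sub, ha, map_mul, map_pow, hc'] at h1
    apply mul_left_cancel₀ hu0
    rw [h1]; ring
  have hkey : red p (T ^ h * c) = (- red p (C a₂)) ^ h * (red p uu ^ (h + 1) * red p C' ^ p) := by
    have hpow : red p C' ^ p = red p C' ^ (2 * h + 1) := congrArg (fun k => red p C' ^ k) hph
    rw [map_mul, map_pow, hT', hc', hpow]
    ring
  have hCa : (- red p (C a₂)) ^ h = C ((-(a₂ : ZMod p)) ^ h) := by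
    have h1 : red p (C a₂) = C (a₂ : ZMod p) := by
      simp [red, PowerSeries.map_C]
    rw [h1, ← map_neg, ← map_pow]
  rw [← coeff_red, hkey, hCa, coeff_C_mul]
  congr 1
  rw [← expand_eq_pow]
  -- `red uu ^ (h+1)` is a polynomial of degree `h + 1 < p`
  set P : Polynomial (ZMod p) := (1 - Polynomial.C 10 * Polynomial.X) ^ (h + 1) with hP
  have hPu : red p uu ^ (h + 1) = (P : PowerSeries (ZMod p)) := by
    have h1 : red p uu = ((1 - Polynomial.C 10 * Polynomial.X : Polynomial (ZMod p)) :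
        PowerSeries (ZMod p)) := by
      have h10 : (red p) (C (10 : ℤ)) = C (10 : ZMod p) := by
        simp only [red, PowerSeries.map_C]
        simp
      unfold uu
      rw [map_sub, map_mul, map_one, h10]
      simp only [Polynomial.coe_sub, Polynomial.coe_one, Polynomial.coe_mul, Polynomial.coe_C,
        Polynomial.coe_X]
      simp [red]
    rw [h1, hP, Polynomial.coe_pow]
  have hdeg : P.natDegree ≤ h + 1 := by
    rw [hP]
    refine (Polynomial.natDegree_pow_le).trans ?_
    have h1 : (1 - Polynomial.C (10 : ZMod p) * Polynomial.X : Polynomial (ZMod p)).natDegree ≤ 1 := by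
      refine (Polynomial.natDegree_sub_le _ _).trans ?_
      simp only [Polynomial.natDegree_one, max_le_iff, zero_le, true_and]
      exact (Polynomial.natDegree_C_mul_le _ _).trans Polynomial.natDegree_X_le
    nlinarith
  have hP0 : P.coeff 0 = 1 := by
    rw [Polynomial.coeff_zero_eq_eval_zero, hP]
    simp
  rw [hPu, coeff_mul, sum_eq_single (0, p * n)]
  · simp only [Polynomial.coeff_coe, hP0, one_mul]
    rw [coeff_expand_mul, coeff_red]
  · rintro ⟨i, j⟩ hij hne
    rw [HasAntidiagonal.mem_antidiagonal] at hij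
    dsimp only at hij ⊢
    rw [Polynomial.coeff_coe]
    by_cases hj : p ∣ j
    · have hi : p ∣ i := (Nat.dvd_add_left hj).1 (hij ▸ dvd_mul_right p n)
      rcases Nat.eq_zero_or_pos i with hi0 | hi0
      · exfalso
        apply hne
        subst hi0
        simp at hij
        rw [hij]
      · have h2 : p ≤ i := Nat.le_of_dvd hi0 hi
        rw [Polynomial.coeff_eq_zero_of_natDegree_lt (by omega), zero_mul]
    · rw [coeff_expand_of_not_dvd _ _ _ hj, mul_zero]
  · intro hne
    exfalso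
    apply hne
    simp

/-- Bad indices are few. -/
lemma card_bad_le {a₂ a₀ : ℤ} {c C' T : PowerSeries ℤ} (h : ℕ) (hph : p = 2 * h + 1) (hh : 1 ≤ h)
    (hc : uu * C' = c) (hT : uu * T = C a₀ - C a₂ * c ^ 2) (ha₀ : (p : ℤ) ∣ a₀)
    (ha₂ : ¬ (p : ℤ) ∣ a₂) (M : ℕ) :
    ((range M).filter (fun n => ¬ (p : ℤ) ∣ coeff n C')).card
      ≤ (cnt T (p * M)) ^ h * cnt c (p * M) := by
  have h1 : ((range M).filter (fun n => ¬ (p : ℤ) ∣ coeff n C')).card ≤ cnt (T ^ h * c) (p * M) := by
    unfold cnt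
    refine card_le_card_of_injOn (fun n => p * n) ?_ ?_
    · intro n hn
      simp only [coe_filter, mem_range, Set.mem_ofPred_eq] at hn ⊢
      refine ⟨(Nat.mul_lt_mul_left hp.out.pos).2 hn.1, fun h0 => hn.2 ?_⟩
      have h2 := frob_coeff h hph hh hc hT ha₀ n
      rw [h0, Int.cast_zero] at h2
      have h3 : (-(a₂ : ZMod p)) ≠ 0 := by
        intro h4
        apply ha₂
        rw [← ZMod.intCast_zmod_eq_zero_iff_dvd]
        simpa using h4
      have h5 := (mul_eq_zero.1 h2.symm).resolve_left (pow_ne_zero _ h3)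
      exact (ZMod.intCast_zmod_eq_zero_iff_dvd _ p).1 h5
    · intro a _ b _ hab
      exact Nat.eq_of_mul_eq_mul_left hp.out.pos hab
  refine h1.trans ((cnt_mul _ _ _).trans ?_)
  exact Nat.mul_le_mul_right _ (cnt_pow _ _ _)

end modp

end SqrtFrob
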