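import Pool.Agent.SqrtFrob.Series

set_option autoImplicit false

/-!
The induction over the powers of a prime.
-/

open Finset PowerSeries

namespace SqrtFrob

/-- `cnt φ N ≤ K Λ(rN)^e`. -/
def Bd (Λ : ℕ → ℕ) (φ : PowerSeries ℤ) (e r : ℕ) : Prop :=
  ∃ K : ℕ, ∀ N, cnt φ N ≤ K * (Λ (r * N)) ^ e

section

variable {Λ : ℕ → ℕ} (hΛ : Monotone Λ) (hΛ1 : ∀ N, 1 ≤ Λ N) {φ ψ : PowerSeries ℤ}

include hΛ hΛ1

lemma Bd.mono {e r e' r' : ℕ} (h : Bd Λ φ e r) (he : e ≤ e') (hr : r ≤ r') : Bd Λ φ e' r' := by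
  obtain ⟨K, hK⟩ := h
  refine ⟨K, fun N => (hK N).trans ?_⟩
  apply Nat.mul_le_mul_left
  calc Λ (r * N) ^ e ≤ Λ (r' * N) ^ e :=
        Nat.pow_le_pow_left (hΛ (Nat.mul_le_mul_right _ hr)) _
    _ ≤ Λ (r' * N) ^ e' := Nat.pow_le_pow_right (hΛ1 _) he

omit hΛ hΛ1 in
lemma Bd.add {e r : ℕ} (h : Bd Λ φ e r) (h' : Bd Λ ψ e r) : Bd Λ (φ + ψ) e r := by
  obtain ⟨K, hK⟩ := h
  obtain ⟨K', hK'⟩ := h'
  refine ⟨K + K', fun N => (cnt_add _ _ _).trans ?_⟩
  rw [add_mul]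
  exact Nat.add_le_add (hK N) (hK' N)

omit hΛ hΛ1 in
lemma Bd.mul {e e' r : ℕ} (h : Bd Λ φ e r) (h' : Bd Λ ψ e' r) : Bd Λ (φ * ψ) (e + e') r := by
  obtain ⟨K, hK⟩ := h
  obtain ⟨K', hK'⟩ := h'
  refine ⟨K * K', fun N => (cnt_mul _ _ _).trans ?_⟩
  rw [pow_add]
  calc cnt φ N * cnt ψ N ≤ (K * Λ (r * N) ^ e) * (K' * Λ (r * N) ^ e') :=
        Nat.mul_le_mul (hK N) (hK' N)
    _ = _ := by ring

omit hΛ hΛ1 in
lemma Bd.of_imp {e r : ℕ} (h : Bd Λ ψ e r) (hi : ∀ k, coeff k ψ = 0 → coeff k φ = 0) :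
    Bd Λ φ e r := by
  obtain ⟨K, hK⟩ := h
  exact ⟨K, fun N => (cnt_of_imp hi N).trans (hK N)⟩

omit hΛ hΛ1 in
lemma Bd.C_mul {e r : ℕ} (h : Bd Λ φ e r) (a : ℤ) : Bd Λ (C a * φ) e r :=
  h.of_imp fun k hk => by rw [coeff_C_mul, hk, mul_zero]

omit hΛ hΛ1 in
lemma Bd.uu_mul {e r : ℕ} (h : Bd Λ φ e r) : Bd Λ (uu * φ) e r := by
  obtain ⟨K, hK⟩ := h
  refine ⟨2 * K, fun N => (cnt_uu_mul _ _).trans ?_⟩
  calc 2 * cnt φ N ≤ 2 * (K * Λ (r * N) ^ e) := Nat.mul_le_mul_left _ (hK N)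
    _ = _ := by ring

/-- The bound for the indices `n` with `p^a ∤ C_n`. -/
theorem stage {p : ℕ} [hp : Fact p.Prime] {h : ℕ} (hph : p = 2 * h + 1) (hh : 1 ≤ h) {a₂ : ℤ}
    (ha₂ : ¬ (p : ℤ) ∣ a₂) (a : ℕ) :
    ∀ (e r : ℕ) (a₀ : ℤ) (c C' T : PowerSeries ℤ), uu * C' = c →
      uu * T = C a₀ - C a₂ * c ^ 2 → ((p : ℤ) ^ a) ^ 2 ∣ a₀ → Bd Λ c e r → Bd Λ T (2 * e) r →
      ∃ K : ℕ, ∀ M, ((range M).filter (fun n => ¬ (p : ℤ) ^ a ∣ coeff n C')).card
        ≤ K * Λ (r * p ^ a * M) ^ (e * p ^ a) := by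
  have hp0 : (p : ℤ) ≠ 0 := by exact_mod_cast hp.out.ne_zero
  induction a with
  | zero =>
    intro e r a₀ c C' T _ _ _ _ _
    refine ⟨0, fun M => ?_⟩
    simp
  | succ a ih =>
    intro e r a₀ c C' T hc hT ha₀ hbc hbT
    obtain ⟨a₀', ha₀'⟩ := ha₀
    -- first stage
    have hpa₀ : (p : ℤ) ∣ a₀ := by
      rw [ha₀']
      exact ⟨((p : ℤ) ^ a) ^ 2 * p * a₀', by ring⟩
    set E : PowerSeries ℤ := PowerSeries.mk (fun n => coeff n C' % p) with hE
    set D : PowerSeries ℤ := PowerSeries.mk (fun n => coeff n C' / p) with hD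
    have hCDE : C' = C (p : ℤ) * D + E := by
      ext n
      rw [map_add, coeff_C_mul, hE, hD, coeff_mk, coeff_mk]
      exact (Int.mul_ediv_add_emod _ _).symm
    have hpos : 0 < p := hp.out.pos
    have hbE : Bd Λ E (e * p) (r * p) := by
      obtain ⟨K, hK⟩ := hbc
      obtain ⟨K', hK'⟩ := hbT
      refine ⟨K' ^ h * K, fun N => ?_⟩
      have h1 := card_bad_le h hph hh hc hT hpa₀ ha₂ N
      have h2 : cnt E N = ((range N).filter (fun n => ¬ (p : ℤ) ∣ coeff n C')).card := by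
        unfold cnt
        apply congrArg
        apply filter_congr
        intro n _
        rw [hE, coeff_mk, Ne, ← Int.dvd_iff_emod_eq_zero]
      rw [h2]
      refine h1.trans ?_
      calc cnt T (p * N) ^ h * cnt c (p * N)
          ≤ (K' * Λ (r * (p * N)) ^ (2 * e)) ^ h * (K * Λ (r * (p * N)) ^ e) :=
            Nat.mul_le_mul (Nat.pow_le_pow_left (hK' _) _) (hK _)
        _ = K' ^ h * K * Λ (r * (p * N)) ^ (e * (2 * h + 1)) := by ring
        _ = _ := by rw [← hph, mul_assoc r p N]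
    -- second stage
    set c' : PowerSeries ℤ := uu * D with hc'
    have hcc' : c = C (p : ℤ) * c' + uu * E := by
      rw [← hc, hc', hCDE]; ring
    obtain ⟨v, hv⟩ := isUnit_uu
    set a₁ : ℤ := ((p : ℤ) ^ a) ^ 2 * a₀' with ha₁
    have ha₀₁ : a₀ = (p : ℤ) ^ 2 * a₁ := by
      rw [ha₀', ha₁]; ring
    set T' : PowerSeries ℤ := (↑v⁻¹ : PowerSeries ℤ) * (C a₁ - C a₂ * c' ^ 2) with hT'
    have hT'' : uu * T' = C a₁ - C a₂ * c' ^ 2 := by
      rw [hT', ← hv, ← mul_assoc, Units.mul_inv, one_mul]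
    have huinj : Function.Injective (fun x : PowerSeries ℤ => uu * x) := by
      intro x y hxy
      have := congrArg (fun z => (↑v⁻¹ : PowerSeries ℤ) * z) hxy
      simp only [← hv, ← mul_assoc, Units.inv_mul, one_mul] at this
      exact this
    have hrel : C ((p : ℤ) ^ 2) * T'
        = T + (C (2 * a₂ * p) * (c' * E) + C a₂ * (uu * (E * E))) := by
      apply huinj
      dsimp only
      have h1 : uu * (C ((p : ℤ) ^ 2) * T') = C ((p : ℤ) ^ 2) * (uu * T') := by ring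
      rw [h1, hT'', mul_add uu T, hT, hcc', ha₀₁]
      simp only [map_mul, map_pow, map_ofNat]
      ring
    have hbD : Bd Λ c' (e * p) (r * p) := by
      have h1 : Bd Λ (C (p : ℤ) * c') (e * p) (r * p) := by
        have h2 : C (p : ℤ) * c' = c + C (-1) * (uu * E) := by
          rw [hcc', map_neg, map_one]; ring
        rw [h2]
        refine Bd.add (hbc.mono hΛ hΛ1 ?_ ?_) (hbE.uu_mul.C_mul _)
        · exact Nat.le_mul_of_pos_right _ hpos
        · exact Nat.le_mul_of_pos_right _ hpos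
      refine h1.of_imp fun k hk => ?_
      rw [coeff_C_mul] at hk
      exact (mul_eq_zero.1 hk).resolve_left hp0
    have hbT' : Bd Λ T' (2 * (e * p)) (r * p) := by
      have h1 : Bd Λ (C ((p : ℤ) ^ 2) * T') (2 * (e * p)) (r * p) := by
        rw [hrel]
        refine Bd.add (hbT.mono hΛ hΛ1 ?_ ?_) (Bd.add ?_ ?_)
        · exact Nat.mul_le_mul_left _ (Nat.le_mul_of_pos_right _ hpos)
        · exact Nat.le_mul_of_pos_right _ hpos
        · refine Bd.C_mul ?_ _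
          rw [two_mul]
          exact hbD.mul hbE
        · refine Bd.C_mul (Bd.uu_mul ?_) _
          rw [two_mul]
          exact hbE.mul hbE
      refine h1.of_imp fun k hk => ?_
      rw [coeff_C_mul] at hk
      exact (mul_eq_zero.1 hk).resolve_left (pow_ne_zero _ hp0)
    obtain ⟨K, hK⟩ := ih (e * p) (r * p) a₁ c' D T' hc'.symm hT'' ⟨a₀', ha₁⟩ hbD hbT'
    obtain ⟨K', hK'⟩ := hbE
    refine ⟨K + K', fun M => ?_⟩
    have hsub : (range M).filter (fun n => ¬ (p : ℤ) ^ (a + 1) ∣ coeff n C') ⊆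
        (range M).filter (fun n => ¬ (p : ℤ) ^ a ∣ coeff n D) ∪
          (range M).filter (fun n => coeff n E ≠ 0) := by
      intro n hn
      simp only [mem_filter, mem_union] at hn ⊢
      by_cases h1 : coeff n E = 0
      · left
        refine ⟨hn.1, fun h2 => hn.2 ?_⟩
        rw [hCDE, map_add, coeff_C_mul, h1, add_zero, pow_succ, mul_comm]
        exact mul_dvd_mul_left _ h2
      · exact Or.inr ⟨hn.1, h1⟩
    have h1 := hK M
    have h2 := hK' M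
    have h3 : cnt E M = ((range M).filter (fun n => coeff n E ≠ 0)).card := rfl
    have h4 : Λ (r * p * M) ^ (e * p) ≤ Λ (r * p ^ (a + 1) * M) ^ (e * p ^ (a + 1)) := by
      have h5 : p ≤ p ^ (a + 1) := Nat.le_self_pow (by omega) p
      calc Λ (r * p * M) ^ (e * p) ≤ Λ (r * p ^ (a + 1) * M) ^ (e * p) :=
            Nat.pow_le_pow_left (hΛ (Nat.mul_le_mul_right _ (Nat.mul_le_mul_left _ h5))) _
        _ ≤ _ := Nat.pow_le_pow_right (hΛ1 _) (Nat.mul_le_mul_left _ h5)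
    have h5 : r * p * p ^ a * M = r * p ^ (a + 1) * M := by ring
    have h6 : e * p * p ^ a = e * p ^ (a + 1) := by ring
    rw [h5, h6] at h1
    calc ((range M).filter (fun n => ¬ (p : ℤ) ^ (a + 1) ∣ coeff n C')).card
        ≤ _ := (card_le_card hsub).trans (card_union_le _ _)
      _ ≤ K * Λ (r * p ^ (a + 1) * M) ^ (e * p ^ (a + 1))
          + K' * Λ (r * p ^ (a + 1) * M) ^ (e * p ^ (a + 1)) := by
        refine Nat.add_le_add h1 ?_
        rw [← h3]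
        exact h2.trans (Nat.mul_le_mul_left _ h4)
      _ = _ := by ring

end

end SqrtFrob
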